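import Pool.Agent.Run7.h952.Amp2

/-!
# Self-improvement of the inequality `β₁ ≤ nrk - 1`

Let `D` be a finitely generated torsion-free group and `X` a finite nonempty set of nontrivial
elements of `D`. The inequality `β₁(Γ) ≤ nrk(Γ) - 1` holds for all nontrivial finitely generated
torsion-free groups if and only if `β₁` is bounded (by any constant `N`) on the finitely generated
torsion-free groups `Γ` which contain `D` in such a way that every single element of `X` normally
generates `Γ`.
-/

set_option autoImplicit false

namespace Pool.Agent.Results.MP_fed171_al.Amplification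

open Run7.h952 Pool.Agent.H919R3.Stmt

theorem result (D : Type) [Group D] (hD : ∀ g : D, g ≠ 1 → ¬ IsOfFinOrder g)
    (hfD : Group.FG D) (X : Finset D) (hX : X.Nonempty) (h1 : (1 : D) ∉ X) :
    OsinThom ↔ ∃ N : ℝ, ∀ (Γ : Type) [Group Γ] (ι : D →* Γ), Function.Injective ι →
      (∀ g : Γ, g ≠ 1 → ¬ IsOfFinOrder g) →
      (∀ x ∈ X, Subgroup.normalClosure ({ι x} : Set Γ) = ⊤) →
      ∀ S : Finset Γ, Subgroup.closure (S : Set Γ) = ⊤ → l2Betti S ≤ N :=
  amplification D hD (fgen_iff.2 hfD) X hX h1

end Pool.Agent.Results.MP_fed171_al.Amplification
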