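import Pool.Agent.Run7.h952.NilB

/-!
# Torsion-free limits of nilpotent groups

A nontrivial finitely generated torsion-free group `Γ` which is locally embeddable into nilpotent
groups satisfies `β₁(Γ) ≤ nrk(Γ) - 1`.
-/

set_option autoImplicit false

namespace Pool.Agent.Results.MP_fed171_al.LimitsOfNilpotent

open Run7.h952 Pool.Agent.H919R3.Stmt

theorem result (Γ : Type) [Group Γ] [Nontrivial Γ] (hΓ : ∀ g : Γ, g ≠ 1 → ¬ IsOfFinOrder g)
    (hnil : ∀ E : Finset Γ, ∃ (Q : Type) (_ : Group Q) (φ : Γ → Q), Group.IsNilpotent Q ∧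
      Set.InjOn φ (E : Set Γ) ∧ ∀ x ∈ E, ∀ y ∈ E, x * y ∈ E → φ (x * y) = φ x * φ y)
    (S : Finset Γ) (hS : Subgroup.closure (S : Set Γ) = ⊤)
    (T : Finset Γ) (hT : Subgroup.normalClosure (T : Set Γ) = ⊤) :
    l2Betti S ≤ (T.card : ℝ) - 1 :=
  limit_nilpotent hΓ hnil S hS T hT

end Pool.Agent.Results.MP_fed171_al.LimitsOfNilpotent
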