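import Pool.Agent.Run7.h952.Ord3

/-!
# Monotonicity of the first L²-Betti number from ordered actions

The question is equivalent to the inequality `β₁(Γ) ≤ β₁(K)` for all finitely generated normally
generating subgroups `K` of finitely generated torsion-free groups `Γ`. Here this inequality is
proved under a connectivity condition which involves an action of `Γ` on a totally ordered set.
-/

set_option autoImplicit false

namespace Pool.Agent.Results.MP_fed171_al.OrderedMonotonicity

open Pool.Agent.H919R3.Stmt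

/-- One step in `Γ` beyond the height `α`: from `a` to `a k` with `k ∈ K`, or along the edge from
`a` to `a t` with `t ∈ S`, the height `a • ω t` of which is larger than `α`. -/
def Step {Γ Ω : Type} [Group Γ] [LinearOrder Ω] [MulAction Γ Ω] (K : Subgroup Γ) (S : Finset Γ)
    (ω : Γ → Ω) (α : Ω) (a b : Γ) : Prop :=
  a⁻¹ * b ∈ K ∨ (a⁻¹ * b ∈ S ∧ α < a • ω (a⁻¹ * b))

theorem result (Γ Ω : Type) [Group Γ] [LinearOrder Ω] [MulAction Γ Ω]
    (hmono : ∀ (g : Γ) (a b : Ω), a < b → g • a < g • b) (ω : Γ → Ω)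
    (K : Subgroup Γ) [Infinite K] (X : Finset K) (hX : Subgroup.closure (X : Set K) = ⊤)
    (S : Finset Γ) (hS : K ⊔ Subgroup.closure (S : Set Γ) = ⊤)
    (h : ∀ s ∈ S, Relation.EqvGen (Step K S ω (ω s)) 1 s ∨
      ∃ c : Γ, ¬ IsOfFinOrder c ∧ c • ω s = ω s ∧
        Relation.EqvGen (Step K S ω (ω s)) 1 c ∧ Relation.EqvGen (Step K S ω (ω s)) s (c * s))
    (S' : Finset Γ) (hS' : Subgroup.closure (S' : Set Γ) = ⊤) : l2Betti S' ≤ l2Betti X :=
  Run7.h952.l2Betti_le_of_step Γ Ω hmono ω K X hX S hS h S' hS'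

end Pool.Agent.Results.MP_fed171_al.OrderedMonotonicity
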