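import Pool.Agent.Run7.h952.Rig3

/-!
# The inequality `β₁ ≤ nrk - 1` as a rigidity statement

The inequality `β₁(Γ) ≤ nrk(Γ) - 1` holds for all nontrivial finitely generated torsion-free
groups if and only if, for every finitely generated torsion-free group `Γ` and every subgroup `C`
whose normal closure is `Γ`, each function `F : Γ → ℂ` with square-summable gradient which is right
`C`-invariant is constant.
-/

set_option autoImplicit false

namespace Pool.Agent.Results.MP_fed171_al.Rigidity

open Run7.h952

theorem result : OsinThom ↔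
    ∀ (Γ : Type) [Group Γ], (∀ g : Γ, g ≠ 1 → ¬ IsOfFinOrder g) →
      ∀ S : Finset Γ, Subgroup.closure (S : Set Γ) = ⊤ →
      ∀ C : Subgroup Γ, Subgroup.normalClosure (C : Set Γ) = ⊤ →
      ∀ F : Γ → ℂ, (∀ s ∈ S, Summable fun h => ‖F (h * s) - F h‖ ^ 2) →
        (∀ h, ∀ c ∈ C, F (h * c) = F h) → ∀ h, F h = F 1 :=
  ⟨fun h => rigid_of_ineqD (ineqD_iff.2 h), fun h => osinThom_of_monot (monot_of_rigid h)⟩

end Pool.Agent.Results.MP_fed171_al.Rigidity
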